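import Pool.Agent.Helper6.NX.GoalsA

/-!
# NX, packet M0
-/

namespace Pool.Agent.Helper90.NX

open Pool.Agent.Helper6.NX

theorem H_eq {Ω : Type} [Fintype Ω] (μ : Ω → ℝ) :
    H μ = ∑ g, - (μ g * Real.log (μ g)) := by
  classical
  unfold H ent
  rw [← Finset.sum_neg_distrib]
  refine Finset.sum_congr rfl (fun g _ => ?_)
  have : law μ (fun g => g) g = μ g := by
    unfold law
    rw [Finset.sum_eq_single g]
    · rw [if_pos rfl]
    · intro b _ hb
      rw [if_neg hb]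
    · intro h
      exact absurd (Finset.mem_univ g) h
  rw [this]

theorem sq_max_sub_le (u v δ : ℝ) (hu : 0 ≤ u) (hv : 0 ≤ v) :
    (max (√u - δ) 0 - max (√v - δ) 0) ^ 2 ≤ |u - v| := by
  have h1 : |max (√u - δ) 0 - max (√v - δ) 0| ≤ |√u - √v| := by
    have := abs_max_sub_max_le_abs (√u - δ) (√v - δ) 0
    have e : √u - δ - (√v - δ) = √u - √v := by ring
    rwa [e] at this
  have h2 : |√u - √v| ≤ |√u + √v| := by
    rw [abs_of_nonneg (add_nonneg (Real.sqrt_nonneg u) (Real.sqrt_nonneg v))]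
    rw [abs_le]
    constructor
    · have := Real.sqrt_nonneg u
      linarith
    · have := Real.sqrt_nonneg v
      linarith
  calc (max (√u - δ) 0 - max (√v - δ) 0) ^ 2
      = |max (√u - δ) 0 - max (√v - δ) 0| ^ 2 := (sq_abs _).symm
    _ ≤ |√u - √v| ^ 2 := pow_le_pow_left₀ (abs_nonneg _) h1 2
    _ = |√u - √v| * |√u - √v| := sq _
    _ ≤ |√u - √v| * |√u + √v| := mul_le_mul_of_nonneg_left h2 (abs_nonneg _)
    _ = |(√u - √v) * (√u + √v)| := (abs_mul _ _).symm
    _ = |u - v| := by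
      congr 1
      have e1 := Real.mul_self_sqrt hu
      have e2 := Real.mul_self_sqrt hv
      nlinarith

theorem thmM0 : S_M0 := by
  classical
  intro G _ _ k x A ε μ hk hA hε hgap hμ hNI
  obtain ⟨hμ0, hμ1⟩ := hμ
  have hA0 : (0 : ℝ) < A := by linarith
  have hk0 : (0 : ℝ) < k := by exact_mod_cast hk
  set δ : ℝ := √(1 / A) with hδ
  have hδ0 : 0 < δ := Real.sqrt_pos.2 (by positivity)
  have hδ2 : δ ^ 2 = 1 / A := Real.sq_sqrt (by positivity)
  set f : G → ℝ := fun g => max (√(μ g) - δ) 0 with hf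
  have hf0 : ∀ g, 0 ≤ f g := fun g => le_max_right _ _
  -- support
  have hsupp : (Nat.card {g : G // f g ≠ 0} : ℝ) ≤ A := by
    rw [Nat.card_eq_fintype_card, Fintype.card_subtype]
    have h1 : ∀ g ∈ Finset.univ.filter (fun g : G => f g ≠ 0), 1 / A ≤ μ g := by
      intro g hg
      have hg' := (Finset.mem_filter.1 hg).2
      by_contra hlt
      push Not at hlt
      apply hg'
      have : √(μ g) ≤ δ := Real.sqrt_le_sqrt hlt.le
      show max (√(μ g) - δ) 0 = 0
      exact max_eq_right (by linarith)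
    have h2 : ((Finset.univ.filter (fun g : G => f g ≠ 0)).card : ℝ) * (1 / A) ≤ 1 := by
      calc ((Finset.univ.filter (fun g : G => f g ≠ 0)).card : ℝ) * (1 / A)
          = ∑ g ∈ Finset.univ.filter (fun g : G => f g ≠ 0), (1 / A) := by
            rw [Finset.sum_const, nsmul_eq_mul]
        _ ≤ ∑ g ∈ Finset.univ.filter (fun g : G => f g ≠ 0), μ g := Finset.sum_le_sum h1
        _ ≤ ∑ g, μ g := Finset.sum_le_sum_of_subset_of_nonneg (Finset.filter_subset _ _)
            (fun g _ _ => hμ0 g)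
        _ = 1 := hμ1
    rw [mul_one_div, div_le_one hA0] at h2
    exact h2
  have hg := hgap f hsupp
  -- shifted sums
  have hshift : ∀ (a : G) (F : G → ℝ), ∑ g, F (g * a) = ∑ g, F g :=
    fun a F => Equiv.sum_comp (Equiv.mulRight a) F
  have hcross : ∀ i, ∑ g, f g * f (g * (x i)⁻¹) = ∑ g, f g * f (g * x i) := by
    intro i
    rw [← hshift (x i) (fun g => f g * f (g * (x i)⁻¹))]
    refine Finset.sum_congr rfl (fun g _ => ?_)
    rw [mul_inv_cancel_right, mul_comm]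
  have hsq : ∀ i, ∑ g, f (g * x i) ^ 2 = ∑ g, f g ^ 2 :=
    fun i => hshift (x i) (fun g => f g ^ 2)
  have hdiff : ∀ i, ∑ g, (f (g * x i) - f g) ^ 2 = 2 * ∑ g, f g ^ 2 - 2 * ∑ g, f g * f (g * x i) := by
    intro i
    have : ∀ g, (f (g * x i) - f g) ^ 2 = f (g * x i) ^ 2 + f g ^ 2 - 2 * (f g * f (g * x i)) := by
      intro g
      ring
    rw [Finset.sum_congr rfl (fun g _ => this g), Finset.sum_sub_distrib, Finset.sum_add_distrib,
      hsq i, ← Finset.mul_sum]
    ring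
  have hdle : ∀ i, ∑ g, (f (g * x i) - f g) ^ 2 ≤ ε := by
    intro i
    calc ∑ g, (f (g * x i) - f g) ^ 2 ≤ ∑ g, |μ (g * x i) - μ g| :=
          Finset.sum_le_sum (fun g _ => sq_max_sub_le _ _ _ (hμ0 _) (hμ0 _))
      _ = ∑ g, |μ (g * (x i)⁻¹) - μ g| := by
          rw [← hshift (x i) (fun g => |μ (g * (x i)⁻¹) - μ g|)]
          refine Finset.sum_congr rfl (fun g _ => ?_)
          rw [mul_inv_cancel_right, abs_sub_comm]
      _ ≤ ε := hNI i
  have hL : ∑ g, f g * ((2 * (k : ℝ))⁻¹ * ∑ i, (f (g * x i) + f (g * (x i)⁻¹))) =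
      (k : ℝ)⁻¹ * ∑ i, ∑ g, f g * f (g * x i) := by
    have h1 : ∀ g, f g * ((2 * (k : ℝ))⁻¹ * ∑ i, (f (g * x i) + f (g * (x i)⁻¹))) =
        (2 * (k : ℝ))⁻¹ * ∑ i, (f g * f (g * x i) + f g * f (g * (x i)⁻¹)) := by
      intro g
      rw [← mul_assoc, mul_comm (f g), mul_assoc, Finset.mul_sum]
      congr 1
      refine Finset.sum_congr rfl (fun i _ => ?_)
      ring
    rw [Finset.sum_congr rfl (fun g _ => h1 g), ← Finset.mul_sum, Finset.sum_comm]
    have h2 : ∀ i, ∑ g, (f g * f (g * x i) + f g * f (g * (x i)⁻¹)) =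
        2 * ∑ g, f g * f (g * x i) := by
      intro i
      rw [Finset.sum_add_distrib, hcross i]
      ring
    rw [Finset.sum_congr rfl (fun i _ => h2 i), ← Finset.mul_sum, mul_inv]
    ring
  rw [hL] at hg
  have hsum : ∑ g, f g ^ 2 ≤ 1 / 2 := by
    have h1 : ∑ i, (2 * ∑ g, f g ^ 2 - 2 * ∑ g, f g * f (g * x i)) ≤ ∑ _i : Fin k, ε :=
      Finset.sum_le_sum (fun i _ => by rw [← hdiff i]; exact hdle i)
    rw [Finset.sum_sub_distrib, Finset.sum_const, Finset.sum_const, Finset.card_univ,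
      Fintype.card_fin, nsmul_eq_mul, nsmul_eq_mul, ← Finset.mul_sum] at h1
    have h2 : (k : ℝ) * ((k : ℝ)⁻¹ * ∑ i, ∑ g, f g * f (g * x i)) =
        ∑ i, ∑ g, f g * f (g * x i) := by
      rw [← mul_assoc, mul_inv_cancel₀ hk0.ne', one_mul]
    have h3 : (k : ℝ) * ((k : ℝ)⁻¹ * ∑ i, ∑ g, f g * f (g * x i)) ≤
        (k : ℝ) * ((1 - ε) * ∑ g, f g ^ 2) := mul_le_mul_of_nonneg_left hg hk0.le
    rw [h2] at h3
    have h4 : (k : ℝ) * ε * (2 * ∑ g, f g ^ 2) ≤ (k : ℝ) * ε * 1 := by nlinarith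
    have h5 := le_of_mul_le_mul_left h4 (by positivity)
    linarith
  -- the large values
  set B : Finset G := Finset.univ.filter (fun g => 100 / A ≤ μ g) with hB
  have hfB : ∀ g ∈ B, 81 / 100 * μ g ≤ f g ^ 2 := by
    intro g hg
    have hg' : 100 / A ≤ μ g := (Finset.mem_filter.1 hg).2
    have h1 : 10 * δ ≤ √(μ g) := by
      apply Real.le_sqrt_of_sq_le
      rw [mul_pow, hδ2]
      calc (10 : ℝ) ^ 2 * (1 / A) = 100 / A := by ring
        _ ≤ μ g := hg'
    have h2 : 9 / 10 * √(μ g) ≤ f g := by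
      refine le_trans ?_ (le_max_left _ _)
      linarith
    have h3 : (9 / 10 * √(μ g)) ^ 2 ≤ f g ^ 2 :=
      pow_le_pow_left₀ (by positivity) h2 2
    rw [mul_pow, Real.sq_sqrt (hμ0 g)] at h3
    calc 81 / 100 * μ g = (9 / 10) ^ 2 * μ g := by norm_num
      _ ≤ _ := h3
  have hBm : ∑ g ∈ B, μ g ≤ 5 / 8 := by
    have h1 : 81 / 100 * ∑ g ∈ B, μ g ≤ 1 / 2 := by
      rw [Finset.mul_sum]
      calc ∑ g ∈ B, 81 / 100 * μ g ≤ ∑ g ∈ B, f g ^ 2 := Finset.sum_le_sum hfB
        _ ≤ ∑ g, f g ^ 2 := Finset.sum_le_sum_of_subset_of_nonneg (Finset.filter_subset _ _)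
            (fun g _ _ => sq_nonneg _)
        _ ≤ 1 / 2 := hsum
    linarith
  have hle1 : ∀ g, μ g ≤ 1 := by
    intro g
    rw [← hμ1]
    exact Finset.single_le_sum (fun a _ => hμ0 a) (Finset.mem_univ g)
  have hterm0 : ∀ g, 0 ≤ -(μ g * Real.log (μ g)) := by
    intro g
    have := Real.log_nonpos (hμ0 g) (hle1 g)
    nlinarith [hμ0 g]
  have hlog : 0 ≤ Real.log A - Real.log 100 := by
    have := Real.log_le_log (by norm_num) hA
    linarith
  have hsplit : ∑ g ∈ B, μ g + ∑ g ∈ Bᶜ, μ g = 1 := by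
    rw [Finset.sum_add_sum_compl, hμ1]
  rw [H_eq]
  calc 3 / 8 * (Real.log A - Real.log 100)
      ≤ (∑ g ∈ Bᶜ, μ g) * (Real.log A - Real.log 100) :=
        mul_le_mul_of_nonneg_right (by linarith) hlog
    _ = ∑ g ∈ Bᶜ, μ g * (Real.log A - Real.log 100) := Finset.sum_mul _ _ _
    _ ≤ ∑ g ∈ Bᶜ, -(μ g * Real.log (μ g)) := by
        refine Finset.sum_le_sum (fun g hg => ?_)
        rcases eq_or_lt_of_le (hμ0 g) with h0 | h0
        · rw [← h0]
          simp
        · have hlt : μ g < 100 / A := by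
            by_contra h
            push Not at h
            rw [Finset.mem_compl] at hg
            exact hg (Finset.mem_filter.2 ⟨Finset.mem_univ g, h⟩)
          have h1 := Real.log_le_log h0 hlt.le
          rw [Real.log_div (by norm_num) hA0.ne'] at h1
          nlinarith
    _ ≤ ∑ g, -(μ g * Real.log (μ g)) :=
        Finset.sum_le_sum_of_subset_of_nonneg (Finset.subset_univ _) (fun g _ _ => hterm0 g)

end Pool.Agent.Helper90.NX
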